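import Pool.Agent.Helper89.A8.Stmts
import Pool.Agent.Helper89.A8.GTools

/-!
# Block G23: the setting (E) in the quotient by `C_K(K_v)` (project A8, MP_93c1ff). Proof: helper5
-/

set_option autoImplicit false

namespace Pool.Agent.A8

open Matrix
open scoped commutatorElement

section
variable {G : Type} [Group G] {π : G →* Gam} {C : Subgroup G} [C.Normal]

/-- descend a homomorphism on `X ≥ C` killing `C` to the quotient by `C` -/
theorem G23_desc (h : C ≤ π.ker) {X : Subgroup G} (hX : X.Normal) (hCX : C ≤ X) {M : Type}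
    [AddCommGroup M] [Module RG M] {φ : G → M} (hφ : HomOn π X φ) (hC : ∀ c ∈ C, φ c = 0) :
    ∃ φ' : G ⧸ C → M, HomOn (QuotientGroup.lift C π h) (X.map (QuotientGroup.mk' C)) φ' ∧
      ∀ x ∈ X, φ' (QuotientGroup.mk' C x) = φ x := by
  classical
  have key : ∀ x ∈ X, φ ((QuotientGroup.mk' C x).out) = φ x := by
    intro x hx
    obtain ⟨c, hc⟩ := QuotientGroup.mk_out_eq_mul C x
    have e : (QuotientGroup.mk' C x).out = x * c := hc
    rw [e, hφ.mul x hx c (hCX c.2), hC c c.2, add_zero]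
  refine ⟨fun q => φ q.out, ⟨?_, ?_⟩, key⟩
  · rintro _ ⟨x, hx, rfl⟩ _ ⟨y, hy, rfl⟩
    rw [← map_mul, key _ (X.mul_mem hx hy), key x hx, key y hy, hφ.mul x hx y hy]
  · rintro g _ ⟨x, hx, rfl⟩
    obtain ⟨g, rfl⟩ := QuotientGroup.mk'_surjective C g
    rw [← map_mul, ← map_inv, ← map_mul, key _ (hX.conj_mem x hx g), key x hx, hφ.conj g x hx]
    rfl

/-- elements of commutator in `C` commute in the quotient -/
theorem G23_comm {A B : Subgroup G} (hAB : ⁅A, B⁆ ≤ C) {a b : G} (ha : a ∈ A) (hb : b ∈ B) :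
    QuotientGroup.mk' C a * QuotientGroup.mk' C b =
      QuotientGroup.mk' C b * QuotientGroup.mk' C a := by
  have h1 : ⁅a, b⁆ ∈ C := hAB (Subgroup.commutator_mem_commutator ha hb)
  have h2 : QuotientGroup.mk' C ⁅a, b⁆ = 1 := (QuotientGroup.eq_one_iff _).2 h1
  rw [map_commutatorElement, commutatorElement_eq_one_iff_mul_comm] at h2
  exact h2

/-- `Cfg` passes to the quotient -/
theorem G23_cfg [Finite G] (hc : Cfg π) (h : C ≤ π.ker) : Cfg (QuotientGroup.lift C π h) := by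
  have key : ∀ n : ℕ, 0 < n → (∀ g : G, orderOf g ≠ n) → ∀ g : G ⧸ C, orderOf g ≠ n := by
    intro n hn hG g hg
    obtain ⟨g, rfl⟩ := QuotientGroup.mk'_surjective C g
    have h1 : n ∣ orderOf g := by
      rw [← hg]
      exact orderOf_map_dvd _ g
    obtain ⟨m, hm⟩ := h1
    have h0 : 0 < orderOf g := orderOf_pos g
    have hm0 : m ≠ 0 := by
      rintro rfl
      rw [mul_zero] at hm
      omega
    apply hG (g ^ m)
    rw [orderOf_pow, hm, Nat.gcd_mul_left_left, Nat.mul_div_cancel _ (Nat.pos_of_ne_zero hm0)]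
  refine ⟨?_, ?_, key 16 (by decide) hc.n16, key 20 (by decide) hc.n20, key 28 (by decide) hc.n28,
    key 30 (by decide) hc.n30⟩
  · intro g
    obtain ⟨x, rfl⟩ := hc.surj g
    exact ⟨QuotientGroup.mk' C x, rfl⟩
  · rintro ⟨x, hx⟩
    obtain ⟨x, rfl⟩ := QuotientGroup.mk'_surjective C x
    obtain ⟨k, hk⟩ := hc.ker2 ⟨x, hx⟩
    refine ⟨k, Subtype.ext ?_⟩
    have hk' : x ^ 2 ^ k = 1 := congrArg Subtype.val hk
    change (QuotientGroup.mk' C x) ^ 2 ^ k = 1
    rw [← map_pow, hk', map_one]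

end

theorem bQE (h1 : S_STR) (h2 : S_MTG) (h3 : S_L7) (h4 : S_INV) : S_QE := by
  intro G _ _ π hc C _ h hC
  have hS := h1 G π hc
  have hM := h2 G π hc
  have hL := h3 G π hc
  refine ⟨G23_cfg hc h, ?_⟩
  set π' : G ⧸ C →* Gam := QuotientGroup.lift C π h with hπ'
  set q : G →* G ⧸ C := QuotientGroup.mk' C with hq
  have hqs : Function.Surjective q := QuotientGroup.mk'_surjective C
  have i1 := Kt_normal π .v
  have i2 := Kt_normal π .d
  have i3 := Kt_normal π .l
  have i4 := ZK_normal π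
  have hZC : ZK π ≤ C := by
    rw [hC]
    exact ZK_le_CK π (Kt_le π _)
  set Y : Subgroup G := Kt π .l ⊔ C with hY
  have hYn : Y.Normal := by rw [hY]; infer_instance
  have hCY : C ≤ Y := le_sup_right
  have hYK : Y ≤ π.ker := sup_le (Kt_le π _) h
  set Y2 : Subgroup G := rjT π .l Y C with hY2
  have hY2n : Y2.Normal := rjT_normal π .l hYn C
  have hY2Y : Y2 ≤ Y := rjT_le π .l Y C
  have hCY2 : C ≤ Y2 := fun x hx => ⟨hCY hx, fun φ _ ht => ht x hx⟩
  have hkerq : ∀ x : G, q x = 1 ↔ x ∈ C := fun x => QuotientGroup.eq_one_iff x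
  have hker' : ∀ x : G, q x ∈ π'.ker ↔ x ∈ π.ker := fun x => Iff.rfl
  -- membership in images
  have hmem : ∀ X : Subgroup G, C ≤ X → ∀ x : G, q x ∈ X.map q ↔ x ∈ X := by
    intro X hCX x
    constructor
    · rintro ⟨y, hy, hyx⟩
      have e : q (y⁻¹ * x) = 1 := by rw [map_mul, map_inv, hyx, inv_mul_cancel]
      have := X.mul_mem hy (hCX ((hkerq _).1 e))
      rwa [mul_inv_cancel_left] at this
    · intro hx
      exact ⟨x, hx, rfl⟩
  have hkermap : π.ker.map q = π'.ker := by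
    ext x
    obtain ⟨x, rfl⟩ := hqs x
    rw [hmem _ h, hker']
  -- `[Kl, K] ≤ C`
  have hKl : ∀ y ∈ π.ker, ∀ l ∈ Kt π .l, q l * q y = q y * q l := by
    have hle : π.ker ≤ (Subgroup.centralizer ((Kt π .l).map q : Set (G ⧸ C))).comap q := by
      have key : ∀ B : Subgroup G, ⁅Kt π .l, B⁆ ≤ C →
          B ≤ (Subgroup.centralizer ((Kt π .l).map q : Set (G ⧸ C))).comap q := by
        intro B hB y hy
        rw [Subgroup.mem_comap, Subgroup.mem_centralizer_iff]
        rintro _ ⟨l, hl, rfl⟩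
        exact G23_comm hB hl hy
      rw [hS.dec]
      refine sup_le (sup_le (sup_le (key _ ?_) (key _ ?_)) (key _ ?_)) (key _ ?_)
      · rw [Subgroup.commutator_comm]
        exact hS.aZ.trans hZC
      · rw [Subgroup.commutator_comm]
        exact hS.aZ'.trans hZC
      · exact hS.ll.trans (sup_le (hS.aZ.trans hZC) (hS.aZ'.trans hZC))
      · exact (Subgroup.commutator_le_right _ _).trans hZC
    intro y hy l hl
    have := hle hy
    rw [Subgroup.mem_comap, Subgroup.mem_centralizer_iff] at this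
    exact this _ ⟨l, hl, rfl⟩
  have hYc : ∀ x ∈ Y, ∀ y ∈ π.ker, q x * q y = q y * q x := by
    have hle : Y ≤ (Subgroup.centralizer (π.ker.map q : Set (G ⧸ C))).comap q := by
      refine sup_le ?_ ?_
      · intro l hl
        rw [Subgroup.mem_comap, Subgroup.mem_centralizer_iff]
        rintro _ ⟨y, hy, rfl⟩
        exact (hKl y hy l hl).symm
      · intro c hc'
        rw [Subgroup.mem_comap, Subgroup.mem_centralizer_iff]
        rintro _ ⟨y, hy, rfl⟩
        rw [(hkerq c).2 hc', mul_one, one_mul]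
    intro x hx y hy
    have := hle hx
    rw [Subgroup.mem_comap, Subgroup.mem_centralizer_iff] at this
    exact (this _ ⟨y, hy, rfl⟩).symm
  refine ⟨Y2.map q, hYn.map q hqs, hY2n.map q hqs, Subgroup.map_mono hY2Y, ?_, ?_, ?_, ?_, ?_⟩
  · rintro _ ⟨x, hx, rfl⟩
    rw [mem_ZK]
    refine ⟨?_, hYK hx⟩
    intro y hy
    obtain ⟨y, rfl⟩ := hqs y
    exact (hYc x hx y hy).symm
  · intro x hx hφ
    obtain ⟨x, rfl⟩ := hqs x
    rw [hmem _ hCY]
    have hg := hL.hg
    rw [← hC] at hg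
    refine hg x hx ?_
    intro φ hφh hφY
    obtain ⟨φ', hφ', hφe⟩ := G23_desc h (ker_normal π) h hφh (fun c hc' => hφY c (hCY hc'))
    rw [← hφe x hx]
    rw [hkermap] at hφ'
    refine hφ φ' hφ' ?_
    rintro _ ⟨y, hy, rfl⟩
    rw [hφe y (hYK hy)]
    exact hφY y hy
  · intro x hx hφ
    obtain ⟨x, rfl⟩ := hqs x
    rw [hmem _ hCY] at hx
    rw [hmem _ hCY2]
    refine ⟨hx, ?_⟩
    intro φ hφh hφC
    obtain ⟨φ', hφ', hφe⟩ := G23_desc h hYn hCY hφh hφC
    rw [← hφe x hx]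
    refine hφ φ' hφ' ?_
    rintro _ ⟨y, hy, rfl⟩
    rw [hφe y (hY2Y hy)]
    exact hy.2 φ hφh hφC
  · intro x hx hφ
    obtain ⟨x, rfl⟩ := hqs x
    rw [hmem _ hCY2] at hx
    rw [Subgroup.mem_bot, hkerq]
    have hM3 := hM.2.2
    rw [← hC] at hM3
    refine hM3 x hx ?_
    intro φ hφh hφC
    obtain ⟨φ', hφ', hφe⟩ := G23_desc h hY2n hCY2 hφh hφC
    rw [← hφe x hx]
    refine hφ φ' hφ' ?_
    intro y hy
    rw [Subgroup.mem_bot] at hy
    rw [hy]
    exact hφ'.map_one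
  · let E : Subgroup (G ⧸ C) :=
      { carrier := {x | x ∈ Y.map q ∧ x * x = 1}
        one_mem' := ⟨Subgroup.one_mem _, one_mul 1⟩
        mul_mem' := by
          rintro _ _ ⟨⟨x, hx, rfl⟩, hx2⟩ ⟨⟨y, hy, rfl⟩, hy2⟩
          refine ⟨Subgroup.mul_mem _ ⟨x, hx, rfl⟩ ⟨y, hy, rfl⟩, ?_⟩
          have e := hYc x hx y (hYK hy)
          calc q x * q y * (q x * q y) = q x * (q y * q x) * q y := by group
            _ = (q x * q x) * (q y * q y) := by rw [← e]; group
            _ = 1 := by rw [hx2, hy2, one_mul]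
        inv_mem' := by
          rintro x ⟨hx, hx2⟩
          refine ⟨Subgroup.inv_mem _ hx, ?_⟩
          rw [← _root_.mul_inv_rev, hx2, inv_one] }
    have hle : Y ≤ E.comap q := by
      refine sup_le ?_ ?_
      · refine sSup_le ?_
        rintro R ⟨φ, hR⟩
        rw [h4 G π hc R .l φ hR, Subgroup.closure_le]
        rintro x ⟨hx, hx2⟩
        refine ⟨⟨x, (le_sup_left : Kt π .l ≤ Y) (hR.le_Kt hx), rfl⟩, ?_⟩
        rw [← map_mul, hx2, map_one]
      · intro c hc'
        have e := (hkerq c).2 hc'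
        rw [Subgroup.mem_comap, e]
        exact E.one_mem
    rintro _ ⟨x, hx, rfl⟩
    exact (hle hx).2

end Pool.Agent.A8
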