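import Pool.Agent.Helper5.A8.G23

/-!
# Block G24: (VI) and (BETA) modulo `C_K(K_v)` (project A8, MP_93c1ff). Proof: helper5
-/

set_option autoImplicit false

namespace Pool.Agent.A8

open Matrix
open scoped commutatorElement

theorem G24_frame {G : Type} [Group G] {π : G →* Gam} {C : Subgroup G} [C.Normal]
    (h : C ≤ π.ker) {s r τ : G} (hf : Frame π s r τ) :
    Frame (QuotientGroup.lift C π h) (QuotientGroup.mk' C s) (QuotientGroup.mk' C r)
      (QuotientGroup.mk' C τ) where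
  s3 := by rw [← map_pow, hf.s3, map_one]
  r3 := by rw [← map_pow, hf.r3, map_one]
  sr := by rw [← map_mul, hf.sr, map_mul]
  τs := by rw [← map_mul, hf.τs, map_mul]
  τr := by rw [← map_inv, ← map_mul, ← map_mul, hf.τr, map_inv]
  πs := hf.πs
  πr := hf.πr
  πτ := hf.πτ

theorem G24_rho {G : Type} [Group G] {π : G →* Gam} {C : Subgroup G} [C.Normal]
    (h : C ≤ π.ker) {s ρ : G} (hf : IsRho π s ρ) :
    IsRho (QuotientGroup.lift C π h) (QuotientGroup.mk' C s) (QuotientGroup.mk' C ρ) where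
  r7 := by rw [← map_pow, hf.r7, map_one]
  πρ := hf.πρ
  sρ := by rw [← map_inv, ← map_mul, ← map_mul, hf.sρ, map_pow]

theorem bVIG (h1 : S_QE) (h2 : S_VI) (h3 : S_UL) : S_VIG := by
  intro G _ _ π hc s r τ ρ hf hρ x hx hxρ hxs
  have i1 := Kt_normal π .v
  have hCn : (CK π (Kt π .v)).Normal := CK_normal π i1
  have hCK : CK π (Kt π .v) ≤ π.ker := CK_le π _
  obtain ⟨hc', Y2, hE⟩ := h1 G π hc (CK π (Kt π .v)) hCK rfl
  have hf' := G24_frame hCK hf
  have hρ' := G24_rho hCK hρ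
  obtain ⟨U, hU⟩ := h3 _ _ hc' _ hE.n0 (hE.le0.trans (ZK_le _)) hE.h0 _ _ hf'.s3 hf'.πs hρ'
  obtain ⟨-, h4⟩ := h2 _ _ hc' _ Y2 hE _ _ _ _ hf' hρ' U hU
    (QuotientGroup.mk' _ x) (show x ∈ π.ker from Kt_le π _ hx)
    (by rw [← map_mul, hxρ, map_mul]) (by rw [← map_mul, hxs, map_mul])
  rw [← commutatorElement_eq_one_iff_mul_comm, ← map_commutatorElement] at h4
  exact (QuotientGroup.eq_one_iff _).1 h4

theorem bBETAG (h1 : S_QE) (h2 : S_BETA) : S_BETAG := by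
  intro G _ _ π hc s r τ hf
  have i1 := Kt_normal π .v
  have i3 := Kt_normal π .l
  have hCn : (CK π (Kt π .v)).Normal := CK_normal π i1
  have hCK : CK π (Kt π .v) ≤ π.ker := CK_le π _
  obtain ⟨hc', Y2, hE⟩ := h1 G π hc (CK π (Kt π .v)) hCK rfl
  have hf' := G24_frame hCK hf
  obtain ⟨h4, h5⟩ := h2 _ _ hc' _ Y2 hE _ _ _ hf'
  have hYn : (Kt π .l ⊔ CK π (Kt π .v)).Normal := inferInstance
  have hCY : CK π (Kt π .v) ≤ Kt π .l ⊔ CK π (Kt π .v) := le_sup_right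
  have hm : τ * τ ∈ Kt π .l ⊔ CK π (Kt π .v) := by
    rw [← map_mul] at h4
    obtain ⟨y, hy, hyx⟩ := h4
    have e : QuotientGroup.mk' (CK π (Kt π .v)) (y⁻¹ * (τ * τ)) = 1 := by
      rw [map_mul, map_inv, hyx, inv_mul_cancel]
    have := Subgroup.mul_mem _ hy (hCY ((QuotientGroup.eq_one_iff _).1 e))
    rwa [mul_inv_cancel_left] at this
  refine ⟨hm, ?_⟩
  intro ψ hψ hψC
  obtain ⟨ψ', hψ', he⟩ := G23_desc hCK hYn hCY hψ hψC
  have h6 := h5 ψ' hψ'
  rw [← map_mul, he _ hm] at h6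
  exact h6

end Pool.Agent.A8
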