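import Pool.Agent.Helper89.A8.Stmts
import Pool.Agent.Helper89.A8.GTools

/-!
# Block G29: decomposition of `C_K(s)` (project A8, MP_93c1ff). Proof: helper5
-/

set_option autoImplicit false

namespace Pool.Agent.A8

open Matrix
open scoped commutatorElement

set_option maxRecDepth 100000 in
theorem G29_fix : ∀ l : V6, actL gs.1 l = l → actL gr.1 l = l := by decide +kernel

theorem G29_fixL (l : ML) (h : act gs l = l) : act gr l = l := by
  rw [act_ML] at h ⊢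
  exact G29_fix l h

section
variable {G : Type} [Group G] {π : G →* Gam}

/-- extend a homomorphism from `D` to `D W'` -/
theorem G29_ext {D W' W : Subgroup G} {M : Type} [AddCommGroup M] [Module RG M] {φ : G → M}
    (hφ : HomOn π D φ) (hD : D.Normal) (hW' : W'.Normal) (hk : ∀ x ∈ D, φ x = 0 ↔ x ∈ W')
    (hW : ∀ x ∈ W, ∃ d ∈ D, ∃ w ∈ W', x = d * w) (hWn : W.Normal) :
    ∃ ψ : G → M, HomOn π W ψ ∧ ∀ x ∈ W, ψ x = 0 ↔ x ∈ W' := by
  classical
  have key : ∀ d ∈ D, ∀ w ∈ W', ∀ d' ∈ D, ∀ w' ∈ W', d * w = d' * w' → φ d = φ d' := by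
    intro d hd w hw d' hd' w' hw' h
    have h1 : d'⁻¹ * d = w' * w⁻¹ := by
      rw [inv_mul_eq_iff_eq_mul, ← mul_assoc, ← h, mul_inv_cancel_right]
    have h2 : d'⁻¹ * d ∈ W' := by
      rw [h1]; exact W'.mul_mem hw' (W'.inv_mem hw)
    have h3 := (hk _ (D.mul_mem (D.inv_mem hd') hd)).2 h2
    rw [hφ.mul _ (D.inv_mem hd') _ hd, hφ.map_inv hd'] at h3
    have h4 : φ d = -φ d' := by
      rw [eq_neg_iff_add_eq_zero, add_comm]; exact h3
    rw [h4, neg_eq]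
  let ψ : G → M := fun x => if h : x ∈ W then φ (hW x h).choose else 0
  have hψ : ∀ d ∈ D, ∀ w ∈ W', d * w ∈ W → ψ (d * w) = φ d := by
    intro d hd w hw h
    have e : ψ (d * w) = φ (hW _ h).choose := dif_pos h
    rw [e]
    obtain ⟨h1, w', hw', h2⟩ := (hW _ h).choose_spec
    exact (key d hd w hw _ h1 w' hw' h2).symm
  refine ⟨ψ, ⟨?_, ?_⟩, ?_⟩
  · intro x hx y hy
    obtain ⟨d, hd, w, hw, rfl⟩ := hW x hx
    obtain ⟨e, he, v, hv, rfl⟩ := hW y hy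
    have e1 : d * w * (e * v) = d * e * (e⁻¹ * w * e * v) := by group
    have e2 : e⁻¹ * w * e ∈ W' := by
      have := hW'.conj_mem w hw e⁻¹
      rwa [inv_inv] at this
    have h3 : d * w * (e * v) ∈ W := W.mul_mem hx hy
    rw [hψ d hd w hw hx, hψ e he v hv hy]
    rw [e1] at h3 ⊢
    rw [hψ _ (D.mul_mem hd he) _ (W'.mul_mem e2 hv) h3, hφ.mul d hd e he]
  · intro g x hx
    obtain ⟨d, hd, w, hw, rfl⟩ := hW x hx
    have e1 : g * (d * w) * g⁻¹ = g * d * g⁻¹ * (g * w * g⁻¹) := by group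
    have h3 := hWn.conj_mem _ hx g
    rw [hψ d hd w hw hx]
    rw [e1] at h3 ⊢
    rw [hψ _ (hD.conj_mem d hd g) _ (hW'.conj_mem w hw g) h3, hφ.conj g d hd]
  · intro x hx
    obtain ⟨d, hd, w, hw, rfl⟩ := hW x hx
    rw [hψ d hd w hw hx, hk d hd]
    exact ⟨fun h => W'.mul_mem h hw, fun h => (Subgroup.mul_mem_cancel_right W' hw).1 h⟩

/-- `r` acts trivially on the `s`-fixed points of `K / (Kv Kd ZK)` -/
theorem G29_step (h2 : S_COV) [Finite G] (hc : Cfg π) {s r τ : G} (hf : Frame π s r τ)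
    (p : G) (hp : p ∈ π.ker) (hps : p * s = s * p) :
    p⁻¹ * (r * p * r⁻¹) ∈ Kt π .v ⊔ Kt π .d ⊔ ZK π := by
  classical
  set T : Subgroup G := Kt π .v ⊔ Kt π .d ⊔ ZK π with hT
  have hTn : T.Normal := by
    have i1 := Kt_normal π .v
    have i2 := Kt_normal π .d
    have i3 := ZK_normal π
    rw [hT]
    infer_instance
  have hTK : T ≤ π.ker := sup_le (sup_le (Kt_le π _) (Kt_le π _)) (ZK_le π)
  let S : Set (Subgroup G) := {W | W.Normal ∧ T ≤ W ∧ W ≤ π.ker ∧ p⁻¹ * (r * p * r⁻¹) ∈ W}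
  have hSn : S.Nonempty := ⟨π.ker, inferInstance, hTK, le_rfl,
    π.ker.mul_mem (π.ker.inv_mem hp) ((ker_normal π).conj_mem p hp r)⟩
  obtain ⟨W, hW⟩ := (Set.toFinite S).exists_minimal hSn
  obtain ⟨⟨hWn, hTW, hWK, hpW⟩, hmin⟩ := hW
  by_cases hWT : W ≤ T
  · exact hWT hpW
  exfalso
  let S' : Set (Subgroup G) := {W' | W'.Normal ∧ T ≤ W' ∧ W' ≤ W ∧ ¬ W ≤ W'}
  have hS'n : S'.Nonempty := ⟨T, hTn, le_rfl, hTW, hWT⟩
  obtain ⟨W', hW'⟩ := (Set.toFinite S').exists_maximal hS'n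
  obtain ⟨⟨hW'n, hTW', hW'W, hnle⟩, hmax⟩ := hW'
  obtain ⟨D, hDn, hDW, hDW', -, hD⟩ := h2 G π hc W W' hWn hW'n hWK hnle
  have hvT : Kt π .v ≤ T := le_sup_left.trans le_sup_left
  have hdT : Kt π .d ≤ T := le_sup_right.trans le_sup_left
  have hzT : ZK π ≤ T := le_sup_right
  have hL : ∃ φ : G → Md .l, Loc π D .l φ ∧ ∀ x ∈ D, φ x = 0 ↔ x ∈ W' := by
    rcases hD with ⟨a, φ, hφ, hk⟩ | hZ
    · cases a with
      | v => exact absurd ((hφ.le_Kt.trans hvT).trans hTW') hDW'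
      | d => exact absurd ((hφ.le_Kt.trans hdT).trans hTW') hDW'
      | l => exact ⟨φ, hφ, hk⟩
    · exact absurd ((hZ.trans hzT).trans hTW') hDW'
  obtain ⟨φ, hφ, hk⟩ := hL
  -- `W = D W'`
  have hWD : W ≤ D ⊔ W' := by
    by_contra hcon
    have hn : (D ⊔ W').Normal := by
      have := hDn
      have := hW'n
      infer_instance
    have h5 : D ⊔ W' ≤ W' := hmax (y := D ⊔ W')
      ⟨hn, hTW'.trans le_sup_right, sup_le hDW hW'W, hcon⟩ le_sup_right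
    exact hDW' (le_sup_left.trans h5)
  have hWd : ∀ x ∈ W, ∃ d ∈ D, ∃ w ∈ W', x = d * w := by
    intro x hx
    have h6 := hWD hx
    have := hW'n
    rw [← SetLike.mem_coe, Subgroup.mul_normal] at h6
    obtain ⟨d, hd, w, hw, rfl⟩ := h6
    exact ⟨d, hd, w, hw, rfl⟩
  obtain ⟨ψ, hψ, hψk⟩ := G29_ext hφ.toHomOn hDn hW'n hk hWd hWn
  set y : G := p⁻¹ * (r * p * r⁻¹) with hy
  have hsr := hf.sr
  have hys : s * y * s⁻¹ = y := by
    have e1 : s * p⁻¹ = p⁻¹ * s := by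
      rw [eq_inv_mul_iff_mul_eq, ← mul_assoc, hps, mul_assoc, mul_inv_cancel, mul_one]
    have e2 : s * r⁻¹ = r⁻¹ * s := by
      rw [eq_inv_mul_iff_mul_eq, ← mul_assoc, ← hsr, mul_assoc, mul_inv_cancel, mul_one]
    rw [mul_inv_eq_iff_eq_mul, hy]
    calc s * (p⁻¹ * (r * p * r⁻¹)) = (s * p⁻¹) * r * p * r⁻¹ := by group
      _ = p⁻¹ * (s * r) * p * r⁻¹ := by rw [e1]; group
      _ = p⁻¹ * r * (s * p) * r⁻¹ := by rw [hsr]; group
      _ = p⁻¹ * r * p * (s * r⁻¹) := by rw [← hps]; group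
      _ = p⁻¹ * (r * p * r⁻¹) * s := by rw [e2]; group
  have hfix : act gr (ψ y) = ψ y := by
    apply G29_fixL
    rw [← hf.πs, ← hψ.conj s y hpW, hys]
  have hr1 : r * y * r⁻¹ ∈ W := hWn.conj_mem y hpW r
  have hr2 : r * (r * y * r⁻¹) * r⁻¹ ∈ W := hWn.conj_mem _ hr1 r
  have e3 : y * (r * y * r⁻¹) * (r * (r * y * r⁻¹) * r⁻¹) = 1 := by
    have h7 : y * (r * y * r⁻¹) * (r * (r * y * r⁻¹) * r⁻¹) =
        p⁻¹ * (r * r * r) * p * (r * r * r)⁻¹ := by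
      rw [hy]; group
    have h3' : r * r * r = 1 := by rw [← pow_three', hf.r3]
    rw [h7, h3']; group
  have e4 : ψ (r * y * r⁻¹) = ψ y := by rw [hψ.conj r y hpW, hf.πr, hfix]
  have e5 : ψ (r * (r * y * r⁻¹) * r⁻¹) = ψ y := by rw [hψ.conj r _ hr1, hf.πr, e4, hfix]
  have e6 : ψ y = 0 := by
    have h8 := hψ.map_one
    rw [← e3, hψ.mul _ (W.mul_mem hpW hr1) _ hr2, hψ.mul _ hpW _ hr1, e4, e5,
      add_self, zero_add] at h8
    exact h8
  have h9 : y ∈ W' := (hψk y hpW).1 e6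
  have h10 : W ≤ W' := hmin (y := W') ⟨hW'n, hTW', hW'W.trans hWK, h9⟩ hW'W
  exact hnle h10

/-- splitting an `s`-fixed element of `A B` -/
theorem G29_split (h3 : S_COP) [Finite G] (hc : Cfg π) {A B : Subgroup G} (hA : A.Normal)
    (hB : B.Normal) (hAK : A ≤ π.ker) {s : G} (hs : s ^ 3 = 1) {n : G} (hn : n ∈ A ⊔ B)
    (hns : n * s = s * n) :
    ∃ a ∈ A, ∃ b ∈ B, a * s = s * a ∧ b * s = s * b ∧ n = a * b := by
  have hn' := hn
  rw [← SetLike.mem_coe, Subgroup.mul_normal] at hn'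
  obtain ⟨a, ha, b, hb, hab⟩ := hn'
  have hab : a * b = n := hab
  have hcop := h3 G (Subgroup.zpowers s) (A ⊓ B) inferInstance
    (by
      rw [Nat.card_zpowers]
      have h1 : orderOf s ∣ 3 := orderOf_dvd_of_pow_eq_one hs
      exact Odd.of_dvd_nat (by decide) h1)
    (hc.ker2.to_le (inf_le_left.trans hAK))
    (by
      intro h _ m hm
      exact ⟨hA.conj_mem m hm.1 h, hB.conj_mem m hm.2 h⟩) a
    (by
      intro h hh
      obtain ⟨k, rfl⟩ := Subgroup.mem_zpowers_iff.1 hh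
      have hk : n * s ^ k = s ^ k * n := (Commute.zpow_right (show Commute n s from hns) k).eq
      refine ⟨A.mul_mem (A.inv_mem ha) (hA.conj_mem a ha _), ?_⟩
      have e : a⁻¹ * (s ^ k * a * (s ^ k)⁻¹) = b * (s ^ k * b * (s ^ k)⁻¹)⁻¹ := by
        have e1 : a = n * b⁻¹ := by rw [← hab]; group
        rw [e1]
        have e2 : s ^ k * (n * b⁻¹) * (s ^ k)⁻¹ = n * (s ^ k * b⁻¹ * (s ^ k)⁻¹) := by
          rw [← mul_assoc (s ^ k) n, ← hk]; group
        rw [e2]; group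
      rw [e]
      exact B.mul_mem hb (B.inv_mem (hB.conj_mem b hb _)))
  obtain ⟨m, hm, hfix⟩ := hcop
  have h5 := hfix s (Subgroup.mem_zpowers s)
  have h6 : a * m * s = s * (a * m) := by
    rw [mul_inv_eq_iff_eq_mul] at h5
    exact h5.symm
  refine ⟨a * m, A.mul_mem ha hm.1, m⁻¹ * b, B.mul_mem (B.inv_mem hm.2) hb, h6, ?_, ?_⟩
  · have e : m⁻¹ * b = (a * m)⁻¹ * n := by rw [← hab]; group
    rw [e]
    have c1 : Commute (a * m) s := h6
    have c2 : Commute n s := hns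
    exact (c1.inv_left.mul_left c2).eq
  · rw [← hab]; group

end

theorem bPDEC (h1 : S_DEC) (h2 : S_COV) (h3 : S_COP) (h4 : S_STR) (h5 : S_QM) (h6 : S_INV) :
    S_PDEC := by
  intro G _ _ π hc s r τ hf p hp hps
  set T : Subgroup G := Kt π .v ⊔ Kt π .d ⊔ ZK π with hT
  have i1 := Kt_normal π .v
  have i2 := Kt_normal π .d
  have i3 := ZK_normal π
  have hTn : T.Normal := by
    rw [hT]
    infer_instance
  have hTK : T ≤ π.ker := sup_le (sup_le (Kt_le π _) (Kt_le π _)) (ZK_le π)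
  have hstep := G29_step h2 hc hf p hp hps
  rw [← hT] at hstep
  have hsr : Commute s r := hf.sr
  -- the group `<s, r>`
  let H : Subgroup G := Subgroup.closure {s, r}
  have hHmem : ∀ h ∈ H, ∃ i j : ℤ, h = s ^ i * r ^ j := by
    intro h hh
    refine Subgroup.closure_induction (p := fun h _ => ∃ i j : ℤ, h = s ^ i * r ^ j)
      ?_ ?_ ?_ ?_ hh
    · rintro x (rfl | rfl)
      · exact ⟨1, 0, by simp⟩
      · exact ⟨0, 1, by simp⟩
    · exact ⟨0, 0, by simp⟩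
    · rintro x y _ _ ⟨i, j, rfl⟩ ⟨i', j', rfl⟩
      refine ⟨i + i', j + j', ?_⟩
      have e := (hsr.zpow_zpow i' j).eq
      rw [_root_.zpow_add, _root_.zpow_add]
      calc s ^ i * r ^ j * (s ^ i' * r ^ j') = s ^ i * (r ^ j * s ^ i') * r ^ j' := by group
        _ = s ^ i * (s ^ i' * r ^ j) * r ^ j' := by rw [e]
        _ = s ^ i * s ^ i' * (r ^ j * r ^ j') := by group
    · rintro x _ ⟨i, j, rfl⟩
      refine ⟨-i, -j, ?_⟩
      have e := (hsr.zpow_zpow (-i) (-j)).eq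
      rw [_root_.mul_inv_rev, ← _root_.zpow_neg, ← _root_.zpow_neg, e]
  have hHc : ∀ a ∈ H, ∀ b ∈ H, a * b = b * a := by
    intro a ha b hb
    obtain ⟨i, j, rfl⟩ := hHmem a ha
    obtain ⟨i', j', rfl⟩ := hHmem b hb
    have c : Commute (s ^ i * r ^ j) (s ^ i' * r ^ j') := by
      refine Commute.mul_left ?_ ?_
      · exact Commute.mul_right ((Commute.refl s).zpow_zpow i i') (hsr.zpow_zpow i j')
      · exact Commute.mul_right (hsr.symm.zpow_zpow j i') ((Commute.refl r).zpow_zpow j j')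
    exact c.eq
  have hH3 : ∀ a ∈ H, a ^ 3 = 1 := by
    intro a ha
    obtain ⟨i, j, rfl⟩ := hHmem a ha
    rw [(hsr.zpow_zpow i j).mul_pow, ← zpow_natCast, ← zpow_natCast, ← _root_.zpow_mul, ← _root_.zpow_mul,
      mul_comm i, mul_comm j, _root_.zpow_mul, _root_.zpow_mul]
    have e1 : s ^ ((3 : ℕ) : ℤ) = 1 := by rw [zpow_natCast, hf.s3]
    have e2 : r ^ ((3 : ℕ) : ℤ) = 1 := by rw [zpow_natCast, hf.r3]
    rw [e1, e2]; simp
  have hsolv : Group.IsSolvable H :=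
    Group.isSolvable_of_comm (fun a b => Subtype.ext (hHc a a.2 b b.2))
  have hodd : Odd (Nat.card H) := by
    have : Fact (Nat.Prime 3) := ⟨Nat.prime_three⟩
    have hp3 : IsPGroup 3 H := fun a => ⟨1, by
      rw [pow_one]
      exact Subtype.ext (hH3 a a.2)⟩
    obtain ⟨k, hk⟩ := IsPGroup.iff_card.1 hp3
    rw [hk]
    exact Odd.pow (by decide)
  have hstep' : ∀ h ∈ H, p⁻¹ * (h * p * h⁻¹) ∈ T := by
    intro h hh
    refine Subgroup.closure_induction (p := fun h _ => p⁻¹ * (h * p * h⁻¹) ∈ T)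
      ?_ ?_ ?_ ?_ hh
    · rintro x (rfl | rfl)
      · rw [← hps]
        simp [T.one_mem]
      · exact hstep
    · simp [T.one_mem]
    · intro x y _ _ hx hy
      have e : p⁻¹ * (x * y * p * (x * y)⁻¹) =
          p⁻¹ * (x * p * x⁻¹) * (x * (p⁻¹ * (y * p * y⁻¹)) * x⁻¹) := by group
      rw [e]
      exact T.mul_mem hx (hTn.conj_mem _ hy x)
    · intro x _ hx
      have e : p⁻¹ * (x⁻¹ * p * x⁻¹⁻¹) = x⁻¹ * (p⁻¹ * (x * p * x⁻¹))⁻¹ * x⁻¹⁻¹ := by group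
      rw [e]
      exact hTn.conj_mem _ (T.inv_mem hx) x⁻¹
  obtain ⟨n, hn, hfix⟩ := h3 G H T hsolv hodd (hc.ker2.to_le hTK)
    (fun h _ m hm => hTn.conj_mem m hm h) p hstep'
  have hs' := hfix s (Subgroup.subset_closure (by simp))
  have hr' := hfix r (Subgroup.subset_closure (by simp))
  rw [mul_inv_eq_iff_eq_mul] at hs' hr'
  have hns : n⁻¹ * s = s * n⁻¹ := by
    have c1 : Commute (p * n) s := hs'.symm
    have c2 : Commute p s := hps
    have c3 : Commute ((p * n)⁻¹ * p) s := c1.inv_left.mul_left c2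
    have e : (p * n)⁻¹ * p = n⁻¹ := by group
    rw [e] at c3
    exact c3.eq
  have hn1 : n⁻¹ ∈ Kt π .v ⊔ (Kt π .d ⊔ ZK π) := by
    rw [← sup_assoc]
    exact T.inv_mem hn
  have i4 : (Kt π .d ⊔ ZK π).Normal := inferInstance
  obtain ⟨p4, hp4, b, hb, h41, hb1, hnb⟩ := G29_split h3 hc i1 i4 (Kt_le π _) hf.s3 hn1 hns
  obtain ⟨pd, hpd, z, hz, hd1, hz1, hbz⟩ := G29_split h3 hc i2 i3 (Kt_le π _) hf.s3 hb hb1
  refine ⟨p * n, π.ker.mul_mem hp (hTK hn), p4, hp4, pd, hpd, z, hz, hs'.symm, hr'.symm, h41,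
    hd1, hz1, ?_⟩
  rw [mul_assoc (p * n * p4), ← hbz, mul_assoc (p * n), ← hnb, mul_inv_cancel_right]

end Pool.Agent.A8
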